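import Pool.Agent.helper21.OE.SpecC
import Pool.Agent.helper83.OE.USU

/-! Row oe:CJU (helper28): complex conjugation commutes with `U_ℓ`. -/

set_option autoImplicit false

namespace Pool.Agent.OE

open MvPolynomial Matrix

/-- the unipotent element `(1 z; 0 1)` of `GL₂(O)` -/
def CJU_h {d t : ℤ} (z : Oz d t) : GO d t where
  val := !![1, z; 0, 1]
  inv := !![1, -z; 0, 1]
  val_inv := by
    rw [Matrix.mul_fin_two, Matrix.one_fin_two]
    congr 1
    simp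
  inv_val := by
    rw [Matrix.mul_fin_two, Matrix.one_fin_two]
    congr 1
    simp

theorem CJU_cm (d t : ℤ) {ℓ : ℕ} (x y : Fin ℓ × Fin ℓ) (z : Oz d t)
    (h : star (rep d t x) = rep d t y + ((ℓ : ℕ) : Oz d t) * z) :
    cm (USU_M d t x) = (CJU_h z).val * USU_M d t y := by
  have e1 : cm (USU_M d t x) = !![1, star (rep d t x); 0, ((ℓ : ℕ) : Oz d t)] := by
    refine Matrix.ext fun i j => ?_
    fin_cases i <;> fin_cases j <;> simp [cm, USU_M]
  rw [e1, h]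
  show _ = !![1, z; 0, 1] * USU_M d t y
  rw [USU_M, Matrix.mul_fin_two]
  refine Matrix.ext fun i j => ?_
  fin_cases i <;> fin_cases j <;> simp [mul_comm z]

theorem CJU (hCMG : CMG_stmt) (hCJA : CJA_stmt) (hCJS : CJS_stmt) (hPRX : PRX_stmt)
    (hTR1 : TR1_stmt) : CJU_stmt := by
  intro d t ht ℓ hℓ A _ f k r χ hχ1 hχ φ hφ
  obtain ⟨-, c2, c3, -, c5, -⟩ := hCMG d t
  obtain ⟨a1, -⟩ := hCJA
  obtain ⟨σ, hσ⟩ := hPRX d t ℓ hℓ
  have hcj := hCJS f k (ℓ ^ r) χ φ hχ hφ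
  funext u v
  have L : cj (opU f ℓ φ) u v = ∑ x : Fin ℓ × Fin ℓ,
      act f (cm (USU_M d t x)).adjugate ((cj φ) (cm (USU_M d t x) *ᵥ u) (cm (USU_M d t x) *ᵥ v)) := by
    show sw (opU f ℓ φ (cv u) (cv v)) = _
    rw [USU_opU, map_sum]
    refine Finset.sum_congr rfl fun x _ => ?_
    rw [a1, c3]
    have e : ∀ u : Vec d t, USU_M d t x *ᵥ cv u = cv (cm (USU_M d t x) *ᵥ u) := by
      intro u
      rw [c2, c5]
    rw [e, e]
    rfl
  rw [L, USU_opU, ← Equiv.sum_comp σ (fun y => act f (USU_M d t y).adjugate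
    ((cj φ) (USU_M d t y *ᵥ u) (USU_M d t y *ᵥ v)))]
  refine Finset.sum_congr rfl fun x _ => ?_
  obtain ⟨z, hz⟩ := hσ x
  have e : cm (USU_M d t x) = (CJU_h z).val * USU_M d t (σ x) := by
    apply CJU_cm
    rw [← hz]; ring
  rw [e, hTR1 d t ht f k (ℓ ^ r) χ (cj φ) hcj (USU_M d t (σ x)) (CJU_h z) ?_ u v]
  · show χ ((!![1, z; 0, 1] : Mat d t) 1 1) • _ = _
    simp [hχ1]
  · show _ ∣ (!![1, z; 0, 1] : Mat d t) 1 0
    simp

end Pool.Agent.OE
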